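import Pool.Agent.helper80.SG.Spec2

set_option autoImplicit false

namespace Pool.Agent.SG

theorem EN2_step (i j : ℕ) :
    ((j + 9) * (i + 2) + 1) * ((j + 8) * (i + 2) + 1) * ((2 * (j + 9) + 1) * (i + 2) + 3) ≤
      (i + 3) * (((j + 8) * (i + 2) + 1) * ((j + 7) * (i + 2) + 1) * ((2 * (j + 8) + 1) * (i + 2) + 3)) := by
  have h : ((j + 9) * (i + 2) + 1) * ((2 * (j + 9) + 1) * (i + 2) + 3) ≤
      (i + 3) * (((j + 7) * (i + 2) + 1) * ((2 * (j + 8) + 1) * (i + 2) + 3)) := by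
    obtain ⟨P, hP⟩ : ∃ P : ℕ, (i + 3) * (((j + 7) * (i + 2) + 1) * ((2 * (j + 8) + 1) * (i + 2) + 3)) =
        ((j + 9) * (i + 2) + 1) * ((2 * (j + 9) + 1) * (i + 2) + 3) + P := by
      apply Nat.exists_eq_add_of_le
      ring_nf
      have h1 : 0 ≤ i * j := Nat.zero_le _
      have h2 : 0 ≤ i ^ 2 := Nat.zero_le _
      have h3 : 0 ≤ j ^ 2 := Nat.zero_le _
      have h4 : 0 ≤ i ^ 2 * j := Nat.zero_le _
      have h5 : 0 ≤ i * j ^ 2 := Nat.zero_le _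
      have h6 : 0 ≤ i ^ 2 * j ^ 2 := Nat.zero_le _
      have h7 : 0 ≤ i ^ 3 := Nat.zero_le _
      have h8 : 0 ≤ i ^ 3 * j := Nat.zero_le _
      have h9 : 0 ≤ i ^ 3 * j ^ 2 := Nat.zero_le _
      nlinarith
    rw [hP]
    exact Nat.le_add_right _ _
  calc ((j + 9) * (i + 2) + 1) * ((j + 8) * (i + 2) + 1) * ((2 * (j + 9) + 1) * (i + 2) + 3)
      = ((j + 8) * (i + 2) + 1) * (((j + 9) * (i + 2) + 1) * ((2 * (j + 9) + 1) * (i + 2) + 3)) := by ring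
    _ ≤ ((j + 8) * (i + 2) + 1) * ((i + 3) * (((j + 7) * (i + 2) + 1) * ((2 * (j + 8) + 1) * (i + 2) + 3))) :=
        Nat.mul_le_mul_left _ h
    _ = _ := by ring

theorem EN2_ind (i j₀ : ℕ) (hb : ((j₀ + 8) * (i + 2) + 1) * ((j₀ + 7) * (i + 2) + 1) * ((2 * (j₀ + 8) + 1) * (i + 2) + 3) ≤
      (i + 2) * (i + 3) ^ (j₀ + 7)) : ∀ j : ℕ,
    (((j₀ + j) + 8) * (i + 2) + 1) * (((j₀ + j) + 7) * (i + 2) + 1) * ((2 * ((j₀ + j) + 8) + 1) * (i + 2) + 3) ≤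
      (i + 2) * (i + 3) ^ ((j₀ + j) + 7) := by
  intro j
  induction j with
  | zero => simpa using hb
  | succ j ih =>
    have h := EN2_step i (j₀ + j)
    calc ((j₀ + (j + 1) + 8) * (i + 2) + 1) * ((j₀ + (j + 1) + 7) * (i + 2) + 1) * ((2 * (j₀ + (j + 1) + 8) + 1) * (i + 2) + 3)
        = ((j₀ + j + 9) * (i + 2) + 1) * ((j₀ + j + 8) * (i + 2) + 1) * ((2 * (j₀ + j + 9) + 1) * (i + 2) + 3) := by ring
      _ ≤ _ := h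
      _ ≤ (i + 3) * ((i + 2) * (i + 3) ^ (j₀ + j + 7)) := Nat.mul_le_mul_left _ ih
      _ = (i + 2) * (i + 3) ^ (j₀ + (j + 1) + 7) := by ring

theorem EN2_b8 (i : ℕ) : ((0 + 8) * (i + 1 + 2) + 1) * ((0 + 7) * (i + 1 + 2) + 1) * ((2 * (0 + 8) + 1) * (i + 1 + 2) + 3) ≤
      (i + 1 + 2) * (i + 1 + 3) ^ (0 + 7) := by
  ring_nf
  have h2 : 0 ≤ i ^ 2 := Nat.zero_le _
  have h3 : 0 ≤ i ^ 3 := Nat.zero_le _
  have h4 : 0 ≤ i ^ 4 := Nat.zero_le _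
  have h5 : 0 ≤ i ^ 5 := Nat.zero_le _
  have h6 : 0 ≤ i ^ 6 := Nat.zero_le _
  have h7 : 0 ≤ i ^ 7 := Nat.zero_le _
  have h8 : 0 ≤ i ^ 8 := Nat.zero_le _
  linarith

theorem EN2 : EN2_stmt := by
  intro k n h
  by_cases h8 : 8 ≤ k ∧ 3 ≤ n
  · obtain ⟨hk, hn⟩ := h8
    obtain ⟨j, rfl⟩ := Nat.exists_eq_add_of_le' hk
    obtain ⟨i, rfl⟩ := Nat.exists_eq_add_of_le' hn
    have h := EN2_ind (i + 1) 0 (EN2_b8 i) j
    have e1 : j + 8 - 1 = j + 7 := by omega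
    rw [e1]
    simpa [Nat.zero_add, Nat.add_assoc] using h
  by_cases h10 : 10 ≤ k ∧ n = 2
  · obtain ⟨hk, rfl⟩ := h10
    obtain ⟨j, rfl⟩ := Nat.exists_eq_add_of_le' hk
    have h := EN2_ind 0 2 (by norm_num) j
    have e1 : j + 10 - 1 = 2 + j + 7 := by omega
    have e2 : j + 10 = 2 + j + 8 := by omega
    rw [e1, e2]
    simpa [Nat.zero_add] using h
  have h2 : ∀ m : ℕ, 0 ≤ m ^ 2 ∧ 0 ≤ m ^ 3 ∧ 0 ≤ m ^ 4 ∧ 0 ≤ m ^ 5 ∧ 0 ≤ m ^ 6 ∧ 0 ≤ m ^ 7 :=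
    fun m => ⟨Nat.zero_le _, Nat.zero_le _, Nat.zero_le _, Nat.zero_le _, Nat.zero_le _, Nat.zero_le _⟩
  rcases h with ⟨rfl, hn⟩ | ⟨rfl, hn⟩ | ⟨rfl, hn⟩ | ⟨rfl, hn⟩ | h | h
  · obtain ⟨m, rfl⟩ := Nat.exists_eq_add_of_le' hn
    obtain ⟨a2, a3, a4, a5, a6, a7⟩ := h2 m
    norm_num
    ring_nf
    linarith
  · obtain ⟨m, rfl⟩ := Nat.exists_eq_add_of_le' hn
    obtain ⟨a2, a3, a4, a5, a6, a7⟩ := h2 m
    norm_num
    ring_nf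
    linarith
  · obtain ⟨m, rfl⟩ := Nat.exists_eq_add_of_le' hn
    obtain ⟨a2, a3, a4, a5, a6, a7⟩ := h2 m
    norm_num
    ring_nf
    linarith
  · obtain ⟨m, rfl⟩ := Nat.exists_eq_add_of_le' hn
    obtain ⟨a2, a3, a4, a5, a6, a7⟩ := h2 m
    norm_num
    ring_nf
    linarith
  · exact absurd h h8
  · omega

end Pool.Agent.SG
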